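import Pool.Agent.J6H54.CH.Stm

/-!
# CH-25: independent digits
-/

set_option autoImplicit false

namespace Pool.Agent.J6H68.CH25

open Finset Pool.Agent.J6H54.CH

section
variable {Λ : Type} [AddCommGroup Λ] {p : Λ → ℝ} {e : ℕ → Λ}

theorem sum_le (h0 : ∀ i, 0 ≤ p (e i)) (h4 : ∀ i, 4 * p (e i) ≤ p (e (i + 1))) (n : ℕ) :
    3 * ∑ i ∈ range n, p (e i) ≤ p (e n) := by
  induction n with
  | zero => simpa using h0 0
  | succ n ih =>
    rw [sum_range_succ]
    have := h4 n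
    linarith

theorem p_sum_le (hz : p 0 = 0) (hadd : ∀ x y, p (x + y) ≤ p x + p y) (J : Finset ℕ) :
    p (∑ i ∈ J, e i) ≤ ∑ i ∈ J, p (e i) := by
  induction J using Finset.induction_on with
  | empty => simp [hz]
  | insert i J hi ih =>
    rw [sum_insert hi, sum_insert hi]
    exact (hadd _ _).trans (by linarith)

theorem p_sum (h0 : ∀ i, 0 ≤ p (e i)) (h4 : ∀ i, 4 * p (e i) ≤ p (e (i + 1))) (hz : p 0 = 0)
    (hadd : ∀ x y, p (x + y) ≤ p x + p y) {n : ℕ} {J : Finset ℕ} (hJ : J ⊆ range n) :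
    3 * p (∑ i ∈ J, e i) ≤ p (e n) := by
  have h1 := p_sum_le (e := e) hz hadd J
  have h2 : ∑ i ∈ J, p (e i) ≤ ∑ i ∈ range n, p (e i) :=
    sum_le_sum_of_subset_of_nonneg hJ fun i _ _ => h0 i
  have h3 := sum_le h0 h4 n
  linarith

theorem ne_case (hpos : ∀ i, 0 < p (e i)) (h4 : ∀ i, 4 * p (e i) ≤ p (e (i + 1))) (hz : p 0 = 0)
    (hneg : ∀ x, p (-x) = p x) (hadd : ∀ x y, p (x + y) ≤ p x + p y) {n : ℕ} {J J' : Finset ℕ}
    (hJ : J ⊆ range (n + 1)) (hn : n ∈ J) (hJ' : J' ⊆ range n) :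
    ∑ i ∈ J, e i ≠ ∑ i ∈ J', e i := by
  intro h
  have h0 : ∀ i, 0 ≤ p (e i) := fun i => (hpos i).le
  have hJe : J.erase n ⊆ range n := by
    intro i hi
    have h1 := mem_range.1 (hJ (mem_of_mem_erase hi))
    have h2 := ne_of_mem_erase hi
    rw [mem_range]
    omega
  have h1 := add_sum_erase J e hn
  rw [h] at h1
  have h2 : e n = ∑ i ∈ J', e i + -∑ i ∈ J.erase n, e i := by rw [← h1]; abel
  have h3 := hadd (∑ i ∈ J', e i) (-∑ i ∈ J.erase n, e i)
  rw [← h2, hneg] at h3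
  have h5 := p_sum h0 h4 hz hadd hJ'
  have h6 := p_sum h0 h4 hz hadd hJe
  have h7 := hpos n
  linarith

theorem inj (hpos : ∀ i, 0 < p (e i)) (h4 : ∀ i, 4 * p (e i) ≤ p (e (i + 1))) (hz : p 0 = 0)
    (hneg : ∀ x, p (-x) = p x) (hadd : ∀ x y, p (x + y) ≤ p x + p y) (n : ℕ) :
    ∀ J J' : Finset ℕ, J ⊆ range n → J' ⊆ range n → ∑ i ∈ J, e i = ∑ i ∈ J', e i → J = J' := by
  induction n with
  | zero =>
    intro J J' hJ hJ' _
    rw [range_zero, subset_empty] at hJ hJ'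
    rw [hJ, hJ']
  | succ n ih =>
    intro J J' hJ hJ' h
    have hless : ∀ K : Finset ℕ, K ⊆ range (n + 1) → n ∉ K → K ⊆ range n := by
      intro K hK hn i hi
      have h1 := mem_range.1 (hK hi)
      have h2 : i ≠ n := fun h => hn (h ▸ hi)
      rw [mem_range]
      omega
    by_cases hn : n ∈ J
    · by_cases hn' : n ∈ J'
      · have h1 := add_sum_erase J e hn
        have h2 := add_sum_erase J' e hn'
        have h3 : ∑ i ∈ J.erase n, e i = ∑ i ∈ J'.erase n, e i := by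
          rw [← h2, ← h1] at h
          exact add_left_cancel h
        have h5 := ih (J.erase n) (J'.erase n)
          (hless _ ((erase_subset _ _).trans hJ) (notMem_erase _ _))
          (hless _ ((erase_subset _ _).trans hJ') (notMem_erase _ _)) h3
        rw [← insert_erase hn, ← insert_erase hn', h5]
      · exact absurd h (ne_case hpos h4 hz hneg hadd hJ hn (hless _ hJ' hn'))
    · by_cases hn' : n ∈ J'
      · exact absurd h.symm (ne_case hpos h4 hz hneg hadd hJ' hn' (hless _ hJ hn))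
      · exact ih J J' (hless _ hJ hn) (hless _ hJ' hn') h

end

theorem p_pos {Λ : Type} [AddCommGroup Λ] {σ : Λ ≃ₗ[ℤ] Λ} {p q : Λ → ℝ} {κ M C0 : ℝ}
    (H : Hyp σ p q κ M C0) {x : Λ} (hx : x ≠ 0) : 0 < p x := by
  rcases (H.p_nonneg x).lt_or_eq with h | h
  · exact h
  exfalso
  have hp0 : ∀ n : ℕ, p ((σ ^ (n : ℤ)) x) ≤ 0 := fun n => by
    have := H.p_up n x
    rwa [← h, mul_zero] at this
  have hq : ∀ n : ℕ, q ((σ ^ (n : ℤ)) x) ≤ q x := fun n => (H.q_pow n x).trans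
    (mul_le_of_le_one_left (H.q_nonneg x) (pow_le_one₀ H.κ_pos.le H.κ_lt.le))
  have hfin := H.fin (q x)
  have hmaps : ∀ n : ℕ, (σ ^ (n : ℤ)) x ∈ {y | p y ≤ q x ∧ q y ≤ q x} :=
    fun n => ⟨(hp0 n).trans (H.q_nonneg x), hq n⟩
  obtain ⟨i, j, hij, hij'⟩ : ∃ i j : ℕ, i < j ∧ (σ ^ (i : ℤ)) x = (σ ^ (j : ℤ)) x := by
    by_contra hcon
    push Not at hcon
    have hinj : Function.Injective (fun n : ℕ => (σ ^ (n : ℤ)) x) := by
      intro i j hij
      rcases lt_trichotomy i j with hlt | heq | hgt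
      · exact absurd hij (hcon i j hlt)
      · exact heq
      · exact absurd hij.symm (hcon j i hgt)
    refine Set.infinite_range_of_injective hinj (hfin.subset ?_)
    rintro _ ⟨n, rfl⟩
    exact hmaps n
  have h1 : (σ ^ ((j - i : ℕ) : ℤ)) x = x := by
    have e1 : ((j - i : ℕ) : ℤ) = -(i : ℤ) + (j : ℤ) := by omega
    rw [e1, pow_add_apply, ← hij', pow_neg_pow]
  have h2 := H.q_pow (j - i) x
  rw [h1] at h2
  have h3 : κ ^ (j - i) < 1 := pow_lt_one₀ H.κ_pos.le H.κ_lt (by omega)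
  have h4 := H.q_nonneg x
  have h5 : q x = 0 := by
    rcases h4.lt_or_eq with h5 | h5
    · nlinarith
    · exact h5.symm
  exact hx (H.sep x h.symm h5)

theorem m25 : S_digit := by
  intro Λ _ σ p q κ M C0 H
  obtain ⟨x, hx⟩ := H.nontriv
  obtain ⟨g, hg⟩ := exists_pow_lt_of_lt_one (show (0 : ℝ) < 1 / 4 by norm_num) H.κ_lt
  have hg1 : 1 ≤ g := by
    rcases Nat.eq_zero_or_pos g with h | h
    · rw [h, pow_zero] at hg
      norm_num at hg
    · exact h
  have hne : ∀ n : ℤ, (σ ^ n) x ≠ 0 := by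
    intro n h
    have := pow_neg_pow (σ := σ) n x
    rw [h, map_zero] at this
    exact hx this.symm
  have hpos : ∀ i : ℕ, 0 < p ((σ ^ ((g * i : ℕ) : ℤ)) x) := fun i => p_pos H (hne _)
  have h4 : ∀ i : ℕ, 4 * p ((σ ^ ((g * i : ℕ) : ℤ)) x) ≤ p ((σ ^ ((g * (i + 1) : ℕ) : ℤ)) x) := by
    intro i
    have e1 : ((g * i : ℕ) : ℤ) = -(g : ℤ) + ((g * (i + 1) : ℕ) : ℤ) := by push_cast; ring
    have h1 := H.p_pow g ((σ ^ ((g * (i + 1) : ℕ) : ℤ)) x)
    rw [← pow_add_apply, ← e1] at h1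
    have h2 := hpos (i + 1)
    nlinarith
  refine ⟨x, g, hg1, ?_⟩
  intro J J' h
  obtain ⟨n, hn⟩ := exists_nat_subset_range (J ∪ J')
  exact inj (e := fun i : ℕ => (σ ^ ((g * i : ℕ) : ℤ)) x) hpos h4 H.p_zero H.p_neg H.p_add n J J'
    (subset_union_left.trans hn) (subset_union_right.trans hn) h

end Pool.Agent.J6H68.CH25
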