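import Pool.Agent.J6H54.CH.Stm

/-!
# CH-15: the radius
-/

set_option autoImplicit false

namespace Pool.Agent.J6H68.CH15

open Finset Filter Topology Pool.Agent.J6H54.CH

section
variable {f : ℕ → ℝ → ℝ} {a b z₀ : ℝ}

theorem low (hpos : ∀ h z, 0 < z → 0 < f h z) (ha : 0 < a) (hz₀ : 0 < z₀)
    (h1 : ∀ h1 h2 z, z₀ ≤ z → z ≤ 1 → a * (f h1 z * f h2 z) ≤ f (h1 + h2) z) {z : ℝ}
    (hz : z₀ ≤ z) (hz' : z ≤ 1) (h : ℕ) (k : ℕ) (hk : 1 ≤ k) :
    (a * f h z) ^ k ≤ a * f (k * h) z := by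
  induction k, hk using Nat.le_induction with
  | base => simp
  | succ k hk ih =>
    have h2 : 0 ≤ a * f h z := (mul_pos ha (hpos h z (hz₀.trans_le hz))).le
    have h3 := h1 (k * h) h z hz hz'
    have h4 := mul_le_mul_of_nonneg_left h3 ha.le
    have h5 := mul_le_mul_of_nonneg_right ih h2
    rw [pow_succ, add_mul, one_mul]
    refine h5.trans (le_trans (le_of_eq ?_) h4)
    ring

theorem upp (hpos : ∀ h z, 0 < z → 0 < f h z) (hb : 0 < b) (hz₀ : 0 < z₀)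
    (h2 : ∀ h1 h2 z, z₀ ≤ z → z ≤ 1 → f (h1 + h2) z ≤ b * (f h1 z * f h2 z)) {z : ℝ}
    (hz : z₀ ≤ z) (hz' : z ≤ 1) (h : ℕ) (k : ℕ) (hk : 1 ≤ k) :
    b * f (k * h) z ≤ (b * f h z) ^ k := by
  induction k, hk using Nat.le_induction with
  | base => simp
  | succ k hk ih =>
    have h1 : 0 ≤ b * f h z := (mul_pos hb (hpos h z (hz₀.trans_le hz))).le
    have h3 := h2 (k * h) h z hz hz'
    have h4 := mul_le_mul_of_nonneg_left h3 hb.le
    have h5 := mul_le_mul_of_nonneg_right ih h1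
    rw [pow_succ, add_mul, one_mul]
    refine h4.trans (le_trans (le_of_eq ?_) h5)
    ring

theorem radius (hf : ∀ h, Continuous (f h)) (hpos : ∀ h z, 0 < z → 0 < f h z)
    (ha : 0 < a) (hb : 0 < b) (hz₀ : 0 < z₀) (hz1 : z₀ ≤ 1)
    (h1 : ∀ h1 h2 z, z₀ ≤ z → z ≤ 1 → a * (f h1 z * f h2 z) ≤ f (h1 + h2) z)
    (h2 : ∀ h1 h2 z, z₀ ≤ z → z ≤ 1 → f (h1 + h2) z ≤ b * (f h1 z * f h2 z))
    (h3 : ∀ h, a * f h z₀ ≤ 1) (h4 : ∃ h, 1 < a * f h 1) :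
    ∃ ρ, z₀ ≤ ρ ∧ ρ < 1 ∧ (∀ h, a * f h ρ ≤ 1) ∧ ∀ h, 1 ≤ b * f h ρ := by
  have hZc : IsClosed {z | z₀ ≤ z ∧ z ≤ 1 ∧ ∀ h, a * f h z ≤ 1} := by
    have : {z | z₀ ≤ z ∧ z ≤ 1 ∧ ∀ h, a * f h z ≤ 1} =
        Set.Icc z₀ 1 ∩ ⋂ h, {z | a * f h z ≤ 1} := by
      ext z
      simp [and_assoc]
    rw [this]
    exact isClosed_Icc.inter (isClosed_iInter fun h =>
      isClosed_le (continuous_const.mul (hf h)) continuous_const)
  have hne : z₀ ∈ {z | z₀ ≤ z ∧ z ≤ 1 ∧ ∀ h, a * f h z ≤ 1} := ⟨le_rfl, hz1, h3⟩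
  have hbd : BddAbove {z | z₀ ≤ z ∧ z ≤ 1 ∧ ∀ h, a * f h z ≤ 1} := ⟨1, fun z hz => hz.2.1⟩
  have hρ := hZc.csSup_mem ⟨z₀, hne⟩ hbd
  set ρ : ℝ := sSup {z | z₀ ≤ z ∧ z ≤ 1 ∧ ∀ h, a * f h z ≤ 1} with hρd
  obtain ⟨hρ0, hρ1, hρ2⟩ := hρ
  have hρ3 : ρ < 1 := by
    refine lt_of_le_of_ne hρ1 fun he => ?_
    obtain ⟨h, hh⟩ := h4
    have := hρ2 h
    rw [he] at this
    linarith
  have hρpos : 0 < ρ := hz₀.trans_le hρ0
  refine ⟨ρ, hρ0, hρ3, hρ2, fun h => ?_⟩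
  by_contra hlt
  rw [not_le] at hlt
  -- `h` is positive
  have hh1 : 1 ≤ h := by
    rcases Nat.eq_zero_or_pos h with h0 | h0
    · exfalso
      rw [h0] at hlt
      have e1 := h2 0 0 ρ hρ0 hρ1
      have e2 := hpos 0 ρ hρpos
      rw [add_zero] at e1
      nlinarith
    · exact h0
  -- a point beyond `ρ`
  have hev : ∀ᶠ z in 𝓝[>] ρ, b * f h z < 1 :=
    (((continuous_const.mul (hf h)).tendsto ρ).eventually (gt_mem_nhds hlt)).filter_mono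
      nhdsWithin_le_nhds
  obtain ⟨z, hz1', hz2⟩ := (hev.and (Ioo_mem_nhdsGT hρ3)).exists
  have hzZ : z ∉ {z | z₀ ≤ z ∧ z ≤ 1 ∧ ∀ h, a * f h z ≤ 1} := notMem_of_csSup_lt hz2.1 hbd
  have hz0 : z₀ ≤ z := hρ0.trans hz2.1.le
  have hz1'' : z ≤ 1 := hz2.2.le
  have hzpos : 0 < z := hz₀.trans_le hz0
  have hex : ∃ h', 1 < a * f h' z := by
    by_contra hcon
    push Not at hcon
    exact hzZ ⟨hz0, hz1'', hcon⟩
  obtain ⟨h', hh'⟩ := hex
  have hh1' : 1 ≤ h' := by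
    rcases Nat.eq_zero_or_pos h' with h0 | h0
    · exfalso
      rw [h0] at hh'
      have e1 := h1 0 0 z hz0 hz1''
      have e2 := hpos 0 z hzpos
      rw [add_zero] at e1
      nlinarith
    · exact h0
  have hy0 : 0 < b * f h z := mul_pos hb (hpos h z hzpos)
  obtain ⟨n, hn⟩ := exists_pow_lt_of_lt_one (div_pos hb ha) hz1'
  have k1 := low hpos ha hz₀ h1 hz0 hz1'' h' (h * (n + 1)) (Nat.mul_pos hh1 (Nat.succ_pos n))
  have k2 := upp hpos hb hz₀ h2 hz0 hz1'' h (h' * (n + 1)) (Nat.mul_pos hh1' (Nat.succ_pos n))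
  have k3 : 1 ≤ (a * f h' z) ^ (h * (n + 1)) := one_le_pow₀ hh'.le
  have k4 : (b * f h z) ^ (h' * (n + 1)) ≤ (b * f h z) ^ n :=
    pow_le_pow_of_le_one hy0.le hz1'.le (by nlinarith)
  have k5 : h * (n + 1) * h' = h' * (n + 1) * h := by ring
  rw [k5] at k1
  have k6 : 1 ≤ a * f (h' * (n + 1) * h) z := k3.trans k1
  have k7 : b * f (h' * (n + 1) * h) z < b / a := (k2.trans k4).trans_lt hn
  rw [lt_div_iff₀ ha] at k7
  have k8 := mul_le_mul_of_nonneg_left k6 hb.le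
  linarith

end

theorem m15 (h13 : S_mulA) (h14 : S_box) : S_rho := by
  intro Λ _ σ T p q κ M C0 C R C' K H hG hB hC hK hht hlen
  obtain ⟨hcard, hunb⟩ := h14 Λ σ T p q κ M C0 C C' H hG hC hlen
  have hC0 : 0 ≤ C := by linarith [H.one_le_C0]
  set X : ℝ := ((T.card : ℝ) + 1) ^ C' with hX
  have hX1 : 1 ≤ X := one_le_pow₀ (by linarith [Nat.cast_nonneg (α := ℝ) T.card])
  have hX0 : 0 < X := by linarith
  have hy0 : 0 < X⁻¹ := inv_pos.2 hX0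
  have hy1 : X⁻¹ ≤ 1 := inv_le_one_of_one_le₀ hX1
  have hz₀ : 0 < X⁻¹ ^ R := pow_pos hy0 R
  have hz1 : X⁻¹ ^ R ≤ 1 := pow_le_one₀ hy0.le hy1
  obtain ⟨a, b, ha, hb, hab⟩ := h13 Λ σ T p q κ M C0 C (X⁻¹ ^ R) K H hG hC hz₀ hK
  have hh : ∀ (h : ℕ) (v : Λ), h ≤ R * len σ T (v, (h : ℤ)) := by
    intro h v
    have := hht (v, (h : ℤ))
    simpa using this
  have hA0 : ∀ h, A σ T p q C h (X⁻¹ ^ R) ≤ X := by
    intro h
    unfold A
    calc ∑ v ∈ bx σ p q C h, (X⁻¹ ^ R) ^ len σ T (v, (h : ℤ))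
        ≤ ∑ _v ∈ bx σ p q C h, X⁻¹ ^ h := by
          refine Finset.sum_le_sum fun v _ => ?_
          rw [← pow_mul]
          exact pow_le_pow_of_le_one hy0.le hy1 (hh h v)
      _ = ((bx σ p q C h).card : ℝ) * X⁻¹ ^ h := by rw [Finset.sum_const, nsmul_eq_mul]
      _ ≤ X ^ (h + 1) * X⁻¹ ^ h := by
          refine mul_le_mul_of_nonneg_right ?_ (pow_pos hy0 h).le
          have h5 : ((bx σ p q C h).card : ℝ) ≤ (((T.card + 1) ^ (C' * (h + 1)) : ℕ) : ℝ) := by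
            exact_mod_cast hcard h
          refine h5.trans (le_of_eq ?_)
          rw [hX]
          push_cast
          rw [pow_mul]
      _ = X := by
          rw [pow_succ, mul_right_comm, ← mul_pow, mul_inv_cancel₀ hX0.ne', one_pow, one_mul]
  have hcont : ∀ h, Continuous (A σ T p q C h) := by
    intro h
    unfold A
    exact continuous_finsetSum _ fun v _ => continuous_pow _
  have hpos : ∀ h z, 0 < z → 0 < A σ T p q C h z := by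
    intro h z hz
    unfold A
    refine Finset.sum_pos (fun v _ => pow_pos hz _) ⟨0, ?_⟩
    rw [mem_bx H, map_zero, H.q_zero, H.p_zero]
    exact ⟨hC0, hC0⟩
  set a' : ℝ := min a X⁻¹ with ha'
  have ha'0 : 0 < a' := lt_min ha hy0
  have ha'a : a' ≤ a := min_le_left _ _
  have ha'X : a' ≤ X⁻¹ := min_le_right _ _
  have h1 : ∀ h1 h2 z, X⁻¹ ^ R ≤ z → z ≤ 1 →
      a' * (A σ T p q C h1 z * A σ T p q C h2 z) ≤ A σ T p q C (h1 + h2) z := by
    intro h1 h2 z hz hz'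
    have hzp : 0 < z := hz₀.trans_le hz
    exact (mul_le_mul_of_nonneg_right ha'a
      (mul_pos (hpos h1 z hzp) (hpos h2 z hzp)).le).trans (hab h1 h2 z hz hz').1
  have h3 : ∀ h, a' * A σ T p q C h (X⁻¹ ^ R) ≤ 1 := by
    intro h
    calc a' * A σ T p q C h (X⁻¹ ^ R) ≤ X⁻¹ * X :=
          mul_le_mul ha'X (hA0 h) (hpos h _ hz₀).le hy0.le
      _ = 1 := inv_mul_cancel₀ hX0.ne'
  have h4 : ∃ h, 1 < a' * A σ T p q C h 1 := by
    obtain ⟨n, hn⟩ := exists_nat_gt (1 / a')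
    obtain ⟨h, hh⟩ := hunb n
    refine ⟨h, ?_⟩
    have e1 : A σ T p q C h 1 = ((bx σ p q C h).card : ℝ) := by
      unfold A
      simp
    have e2 : (n : ℝ) ≤ ((bx σ p q C h).card : ℝ) := by exact_mod_cast hh
    rw [e1]
    rw [div_lt_iff₀ ha'0] at hn
    nlinarith
  obtain ⟨ρ, hρ0, hρ1, hρ2, hρ3⟩ := radius hcont hpos ha'0 hb hz₀ hz1 h1
    (fun h1 h2 z hz hz' => (hab h1 h2 z hz hz').2) h3 h4
  have hρ : 0 < ρ := hz₀.trans_le hρ0
  refine ⟨1 / b, 1 / a', ρ, ⟨by positivity, by positivity, hρ, hρ1, ?_, ?_⟩⟩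
  · intro t ht ht' h
    have e1 : A σ T p q C h (ρ * t ^ R) ≤ A σ T p q C h ρ * t ^ h := by
      unfold A
      rw [Finset.sum_mul]
      refine Finset.sum_le_sum fun v _ => ?_
      rw [mul_pow, ← pow_mul]
      exact mul_le_mul_of_nonneg_left (pow_le_pow_of_le_one ht.le ht' (hh h v)) (pow_pos hρ _).le
    refine e1.trans (mul_le_mul_of_nonneg_right ?_ (pow_pos ht h).le)
    rw [le_div_iff₀ ha'0, mul_comm]
    exact hρ2 h
  · intro t ht ht' h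
    have e1 : A σ T p q C h ρ * t ^ (R * (C' * (h + 1))) ≤ A σ T p q C h (ρ * t ^ R) := by
      unfold A
      rw [Finset.sum_mul]
      refine Finset.sum_le_sum fun v hv => ?_
      rw [mul_pow, ← pow_mul]
      exact mul_le_mul_of_nonneg_left
        (pow_le_pow_of_le_one ht.le ht' (Nat.mul_le_mul_left R (hlen h v hv))) (pow_pos hρ _).le
    refine (mul_le_mul_of_nonneg_right ?_ (pow_pos ht _).le).trans e1
    rw [div_le_iff₀ hb, mul_comm]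
    exact hρ3 h

end Pool.Agent.J6H68.CH15
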